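import Pool.Agent.H24.EH.Defs

/-!
# EHP, blocks (P) and (P2): the profile `Bp` and the data of `FF`
-/

set_option autoImplicit false

open MeasureTheory Set Filter Topology
open scoped Real

noncomputable section

namespace Pool.Agent.H37.EH

open Pool.Agent.H24.EH
open Pool.Agent.H15.EH (FData)

theorem chi_hasDeriv (x : ℝ) : HasDerivAt chi (chi' x) x := by
  have hpoly : ∀ y : ℝ, HasDerivAt (fun x : ℝ => (x + 1) ^ 3 * (3 - x) / 16)
      ((y + 1) ^ 2 * (2 - y) / 4) y := by
    intro y
    have h1 : HasDerivAt (fun x : ℝ => (x + 1) ^ 3) (3 * (y + 1) ^ 2 * 1) y := by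
      simpa using ((hasDerivAt_id' y).add_const 1).fun_pow 3
    have h2 : HasDerivAt (fun x : ℝ => 3 - x) (-1) y := by
      simpa using (hasDerivAt_id y).const_sub 3
    have h3 := (h1.mul h2).div_const 16
    refine h3.congr_deriv ?_
    ring
  have hleft : ∀ y : ℝ, y ≤ -1 → chi y = 0 := fun y hy => by simp [chi, hy]
  have hmid : ∀ y : ℝ, -1 ≤ y → y ≤ 1 → chi y = (y + 1) ^ 3 * (3 - y) / 16 := by
    intro y h1 h2
    unfold chi
    split_ifs with h
    · have : y = -1 := le_antisymm h h1
      subst this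
      norm_num
    · rfl
  have hright : ∀ y : ℝ, 1 ≤ y → chi y = y := by
    intro y h1
    unfold chi
    split_ifs with h h2
    · linarith
    · have : y = 1 := le_antisymm h2 h1
      subst this
      norm_num
    · rfl
  rcases lt_trichotomy x (-1) with h | h | h
  · have e : chi' x = 0 := by simp [chi', h.le]
    rw [e]
    refine (hasDerivAt_const x (0 : ℝ)).congr_of_eventuallyEq ?_
    filter_upwards [gt_mem_nhds h] with y hy
    exact hleft y hy.le
  · subst h
    have e : chi' (-1) = 0 := by simp [chi']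
    rw [e]
    have hl : HasDerivWithinAt chi 0 (Iic (-1)) (-1) := by
      refine (hasDerivWithinAt_const (-1 : ℝ) (Iic (-1)) (0 : ℝ)).congr ?_ ?_
      · intro y hy
        exact hleft y hy
      · exact hleft _ le_rfl
    have hr : HasDerivWithinAt chi 0 (Icc (-1) 1) (-1) := by
      have h0 := (hpoly (-1)).hasDerivWithinAt (s := Icc (-1) 1)
      have h1 : ((-1 : ℝ) + 1) ^ 2 * (2 - (-1)) / 4 = 0 := by norm_num
      rw [h1] at h0
      refine h0.congr ?_ ?_
      · intro y hy
        exact hmid y hy.1 hy.2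
      · exact hmid _ le_rfl (by norm_num)
    have hr' : HasDerivWithinAt chi 0 (Ici (-1)) (-1) :=
      hr.mono_of_mem_nhdsWithin (Icc_mem_nhdsGE (by norm_num))
    have := hl.union hr'
    rwa [Iic_union_Ici, hasDerivWithinAt_univ] at this
  · rcases lt_trichotomy x 1 with h2 | h2 | h2
    · have e : chi' x = (x + 1) ^ 2 * (2 - x) / 4 := by
        simp [chi', not_le.2 h, h2.le]
      rw [e]
      refine (hpoly x).congr_of_eventuallyEq ?_
      filter_upwards [lt_mem_nhds h, gt_mem_nhds h2] with y hy1 hy2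
      exact hmid y hy1.le hy2.le
    · subst h2
      have e : chi' 1 = 1 := by
        norm_num [chi']
      rw [e]
      have hr : HasDerivWithinAt chi 1 (Ici 1) 1 := by
        refine (hasDerivWithinAt_id (1 : ℝ) (Ici 1)).congr ?_ ?_
        · intro y hy
          exact hright y hy
        · exact hright _ le_rfl
      have hl : HasDerivWithinAt chi 1 (Icc (-1) 1) 1 := by
        have h0 := (hpoly 1).hasDerivWithinAt (s := Icc (-1) 1)
        have h1 : ((1 : ℝ) + 1) ^ 2 * (2 - 1) / 4 = 1 := by norm_num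
        rw [h1] at h0
        refine h0.congr ?_ ?_
        · intro y hy
          exact hmid y hy.1 hy.2
        · exact hmid _ (by norm_num) le_rfl
      have hl' : HasDerivWithinAt chi 1 (Iic 1) 1 :=
        hl.mono_of_mem_nhdsWithin (Icc_mem_nhdsLE (by norm_num))
      have := hl'.union hr
      rwa [Iic_union_Ici, hasDerivWithinAt_univ] at this
    · have e : chi' x = 1 := by simp [chi', not_le.2 h, not_le.2 h2]
      rw [e]
      refine (hasDerivAt_id x).congr_of_eventuallyEq ?_
      filter_upwards [lt_mem_nhds h2] with y hy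
      exact hright y hy.le

theorem chi'_hasDeriv (x : ℝ) : HasDerivAt chi' (chi'' x) x := by
  have hpoly : ∀ y : ℝ, HasDerivAt (fun x : ℝ => (x + 1) ^ 2 * (2 - x) / 4)
      (3 / 4 * (1 - y ^ 2)) y := by
    intro y
    have h1 : HasDerivAt (fun x : ℝ => (x + 1) ^ 2) (2 * (y + 1) * 1) y := by
      simpa using ((hasDerivAt_id' y).add_const 1).fun_pow 2
    have h2 : HasDerivAt (fun x : ℝ => 2 - x) (-1) y := by
      simpa using (hasDerivAt_id y).const_sub 2
    have h3 := (h1.mul h2).div_const 4
    refine h3.congr_deriv ?_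
    ring
  have hleft : ∀ y : ℝ, y ≤ -1 → chi' y = 0 := fun y hy => by simp [chi', hy]
  have hmid : ∀ y : ℝ, -1 ≤ y → y ≤ 1 → chi' y = (y + 1) ^ 2 * (2 - y) / 4 := by
    intro y h1 h2
    unfold chi'
    split_ifs with h
    · have : y = -1 := le_antisymm h h1
      subst this
      norm_num
    · rfl
  have hright : ∀ y : ℝ, 1 ≤ y → chi' y = 1 := by
    intro y h1
    unfold chi'
    split_ifs with h h2
    · linarith
    · have : y = 1 := le_antisymm h2 h1
      subst this
      norm_num
    · rfl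
  rcases lt_trichotomy x (-1) with h | h | h
  · have e : chi'' x = 0 := by simp [chi'', h.le]
    rw [e]
    refine (hasDerivAt_const x (0 : ℝ)).congr_of_eventuallyEq ?_
    filter_upwards [gt_mem_nhds h] with y hy
    exact hleft y hy.le
  · subst h
    have e : chi'' (-1) = 0 := by simp [chi'']
    rw [e]
    have hl : HasDerivWithinAt chi' 0 (Iic (-1)) (-1) := by
      refine (hasDerivWithinAt_const (-1 : ℝ) (Iic (-1)) (0 : ℝ)).congr ?_ ?_
      · intro y hy
        exact hleft y hy
      · exact hleft _ le_rfl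
    have hr : HasDerivWithinAt chi' 0 (Icc (-1) 1) (-1) := by
      have h0 := (hpoly (-1)).hasDerivWithinAt (s := Icc (-1) 1)
      have h1 : 3 / 4 * (1 - (-1 : ℝ) ^ 2) = 0 := by norm_num
      rw [h1] at h0
      refine h0.congr ?_ ?_
      · intro y hy
        exact hmid y hy.1 hy.2
      · exact hmid _ le_rfl (by norm_num)
    have hr' : HasDerivWithinAt chi' 0 (Ici (-1)) (-1) :=
      hr.mono_of_mem_nhdsWithin (Icc_mem_nhdsGE (by norm_num))
    have := hl.union hr'
    rwa [Iic_union_Ici, hasDerivWithinAt_univ] at this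
  · rcases lt_trichotomy x 1 with h2 | h2 | h2
    · have e : chi'' x = 3 / 4 * (1 - x ^ 2) := by
        simp [chi'', not_le.2 h, h2.le]
      rw [e]
      refine (hpoly x).congr_of_eventuallyEq ?_
      filter_upwards [lt_mem_nhds h, gt_mem_nhds h2] with y hy1 hy2
      exact hmid y hy1.le hy2.le
    · subst h2
      have e : chi'' 1 = 0 := by
        norm_num [chi'']
      rw [e]
      have hr : HasDerivWithinAt chi' 0 (Ici 1) 1 := by
        refine (hasDerivWithinAt_const (1 : ℝ) (Ici 1) (1 : ℝ)).congr ?_ ?_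
        · intro y hy
          exact hright y hy
        · exact hright _ le_rfl
      have hl : HasDerivWithinAt chi' 0 (Icc (-1) 1) 1 := by
        have h0 := (hpoly 1).hasDerivWithinAt (s := Icc (-1) 1)
        have h1 : 3 / 4 * (1 - (1 : ℝ) ^ 2) = 0 := by norm_num
        rw [h1] at h0
        refine h0.congr ?_ ?_
        · intro y hy
          exact hmid y hy.1 hy.2
        · exact hmid _ (by norm_num) le_rfl
      have hl' : HasDerivWithinAt chi' 0 (Iic 1) 1 :=
        hl.mono_of_mem_nhdsWithin (Icc_mem_nhdsLE (by norm_num))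
      have := hl'.union hr
      rwa [Iic_union_Ici, hasDerivWithinAt_univ] at this
    · have e : chi'' x = 0 := by simp [chi'', not_le.2 h, not_le.2 h2]
      rw [e]
      refine (hasDerivAt_const x (1 : ℝ)).congr_of_eventuallyEq ?_
      filter_upwards [lt_mem_nhds h2] with y hy
      exact hright y hy.le

theorem chi''_eq (x : ℝ) : chi'' x = max 0 (3 / 4 * (1 - x ^ 2)) := by
  unfold chi''
  split_ifs with h h2
  · rw [max_eq_left]
    nlinarith
  · rw [max_eq_right]
    nlinarith
  · rw [max_eq_left]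
    nlinarith

theorem continuous_chi'' : Continuous chi'' := by
  have : chi'' = fun x => max 0 (3 / 4 * (1 - x ^ 2)) := funext chi''_eq
  rw [this]
  fun_prop

theorem chi_bounds (x : ℝ) : 0 ≤ chi x ∧ x ≤ chi x ∧ chi x ≤ max x 0 + 1 := by
  unfold chi
  split_ifs with h h2
  · refine ⟨le_rfl, by linarith, ?_⟩
    have := le_max_right x 0
    linarith
  · have h1 : 0 < x + 1 := by linarith [not_le.1 h]
    have h3 : 0 ≤ 1 - x := by linarith
    refine ⟨?_, ?_, ?_⟩
    · have h4 : 0 ≤ (x + 1) ^ 3 * (3 - x) := mul_nonneg (by positivity) (by linarith)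
      linarith
    · have h4 : 0 ≤ (1 - x) ^ 3 * (3 + x) := mul_nonneg (by positivity) (by linarith)
      nlinarith
    · have h5 : 0 ≤ (1 - x) * (8 + 4 * (x + 1) + (x + 1) ^ 2 * (1 - x)) := by
        refine mul_nonneg h3 ?_
        have : 0 ≤ (x + 1) ^ 2 * (1 - x) := mul_nonneg (by positivity) h3
        linarith
      have h6 := le_max_right x 0
      nlinarith
  · have h1 : 1 < x := not_le.1 h2
    refine ⟨by linarith, le_rfl, ?_⟩
    have := le_max_left x 0
    linarith

theorem chi'_bounds (x : ℝ) : 0 ≤ chi' x ∧ chi' x ≤ 1 := by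
  unfold chi'
  split_ifs with h h2
  · exact ⟨le_rfl, zero_le_one⟩
  · have h1 : 0 < x + 1 := by linarith [not_le.1 h]
    have h3 : 0 ≤ 1 - x := by linarith
    constructor
    · have h4 : 0 ≤ (x + 1) ^ 2 * (2 - x) := mul_nonneg (by positivity) (by linarith)
      linarith
    · have h4 : 0 ≤ (1 - x) ^ 2 * (2 + x) := mul_nonneg (by positivity) (by linarith)
      nlinarith
  · exact ⟨zero_le_one, le_rfl⟩

theorem chi''_bounds (x : ℝ) : 0 ≤ chi'' x ∧ chi'' x ≤ 1 := by
  rw [chi''_eq]
  constructor
  · exact le_max_left _ _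
  · refine max_le zero_le_one ?_
    nlinarith [sq_nonneg x]

/-- (P) profile -/
theorem Bp_props (η : ℝ) (hη : 0 < η) :
    (∀ t, HasDerivAt (Bp η) (B1 η t) t) ∧ (∀ t, HasDerivAt (B1 η) (B2 η t) t) ∧
    Continuous (B2 η) ∧ (∀ t, t ≤ η → Bp η t = 2 * η ∧ B1 η t = 0 ∧ B2 η t = 0) ∧
    (∀ t, 3 * η ≤ t → Bp η t = t ∧ B1 η t = 1 ∧ B2 η t = 0) ∧
    (∀ t, 0 ≤ B1 η t ∧ B1 η t ≤ 1 ∧ 0 ≤ B2 η t ∧ B2 η t ≤ 1 / η) ∧
    (∀ t, 2 * η ≤ Bp η t ∧ t ≤ Bp η t ∧ Bp η t ≤ max t (2 * η) + η) := by
  have hs : ∀ t : ℝ, HasDerivAt (fun t : ℝ => (t - 2 * η) / η) (1 / η) t := by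
    intro t
    simpa using ((hasDerivAt_id t).sub_const (2 * η)).div_const η
  refine ⟨?_, ?_, ?_, ?_, ?_, ?_, ?_⟩
  · intro t
    have h := (((chi_hasDeriv ((t - 2 * η) / η)).comp t (hs t)).const_mul η).const_add (2 * η)
    refine h.congr_deriv ?_
    unfold B1
    field_simp
  · intro t
    have h := (chi'_hasDeriv ((t - 2 * η) / η)).comp t (hs t)
    refine h.congr_deriv ?_
    unfold B2
    field_simp
  · unfold B2
    exact (continuous_chi''.comp (by fun_prop)).div_const η
  · intro t ht
    have h1 : (t - 2 * η) / η ≤ -1 := by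
      rw [div_le_iff₀ hη]
      linarith
    simp [Bp, B1, B2, chi, chi', chi'', h1]
  · intro t ht
    rcases eq_or_lt_of_le ht with h | h
    · have h1 : (t - 2 * η) / η = 1 := by
        rw [← h]
        field_simp
        norm_num
      have h2 : ¬ ((1 : ℝ) ≤ -1) := by norm_num
      simp only [Bp, B1, B2, chi, chi', chi'', h1]
      refine ⟨?_, ?_, ?_⟩
      · norm_num
        linarith
      · norm_num
      · norm_num
    · have h1 : 1 < (t - 2 * η) / η := by
        rw [lt_div_iff₀ hη]
        linarith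
      have h2 : ¬ ((t - 2 * η) / η ≤ -1) := by
        push Not
        linarith
      have h3 : ¬ ((t - 2 * η) / η ≤ 1) := not_le.2 h1
      simp only [Bp, B1, B2, chi, chi', chi'', h2, h3, if_false]
      refine ⟨?_, trivial, ?_⟩
      · field_simp
        ring
      · simp
  · intro t
    have h1 := chi'_bounds ((t - 2 * η) / η)
    have h2 := chi''_bounds ((t - 2 * η) / η)
    refine ⟨h1.1, h1.2, div_nonneg h2.1 hη.le, ?_⟩
    exact div_le_div_of_nonneg_right h2.2 hη.le
  · intro t
    obtain ⟨h1, h2, h3⟩ := chi_bounds ((t - 2 * η) / η)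
    refine ⟨?_, ?_, ?_⟩
    · have := mul_nonneg hη.le h1
      unfold Bp
      linarith
    · have h4 := mul_le_mul_of_nonneg_left h2 hη.le
      have h5 : η * ((t - 2 * η) / η) = t - 2 * η := by field_simp
      unfold Bp
      linarith
    · have h4 := mul_le_mul_of_nonneg_left h3 hη.le
      have h5 : η * ((t - 2 * η) / η) = t - 2 * η := by field_simp
      unfold Bp
      rcases le_total ((t - 2 * η) / η) 0 with h | h
      · rw [max_eq_right h] at h4
        have := le_max_right t (2 * η)
        linarith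
      · rw [max_eq_left h] at h4
        have := le_max_left t (2 * η)
        nlinarith

/-- (P2) `FF` satisfies `FData` -/
theorem FF_data {F Fl Fg Fll Flg Fgg Fllg : ℝ → ℝ → ℝ} (h : FData F Fl Fg Fll Flg Fgg Fllg)
    {η : ℝ} (hη : 0 < η) :
    FData (FF F η) (FFl Fl η) (FFg Fg η) (FFll Fll η) (FFlg Flg η) (FFgg Fg Fgg η)
      (FFllg Fllg η) := by
  obtain ⟨hB, hB1, hB2, -, -, -, hBp⟩ := Bp_props η hη
  have hpos : ∀ t, 0 < Bp η t := fun t => lt_of_lt_of_le (by linarith) (hBp t).1
  have cB : Continuous (Bp η) := continuous_iff_continuousAt.2 fun t => (hB t).continuousAt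
  have cB1 : Continuous (B1 η) := continuous_iff_continuousAt.2 fun t => (hB1 t).continuousAt
  have key : ∀ {f : ℝ → ℝ → ℝ},
      ContinuousOn (fun x : ℝ × ℝ => f x.1 x.2) Pool.Agent.H15.EH.U →
      ContinuousOn (fun x : ℝ × ℝ => f x.1 (Bp η x.2)) Pool.Agent.H15.EH.U := by
    intro f hf
    have h1 : Continuous (fun x : ℝ × ℝ => ((x.1, Bp η x.2) : ℝ × ℝ)) :=
      continuous_fst.prodMk (cB.comp continuous_snd)
    exact (hf.comp_continuous h1 (fun x => hpos x.2)).continuousOn
  refine ⟨?_, ?_, ?_, ?_, ?_, ?_, ?_, ?_, ?_, ?_, ?_, ?_, ?_, ?_⟩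
  · intro l g _
    exact h.dl l _ (hpos g)
  · intro l g _
    exact (h.dg l _ (hpos g)).comp g (hB g)
  · intro l g _
    exact h.dll l _ (hpos g)
  · intro l g _
    exact (h.dlg l _ (hpos g)).comp g (hB g)
  · intro l g _
    exact (h.dgl l _ (hpos g)).mul_const _
  · intro l g _
    have h1 := ((h.dgg l _ (hpos g)).comp g (hB g)).mul (hB1 g)
    refine h1.congr_deriv ?_
    simp only [FFgg, Function.comp]
    ring
  · intro l g _
    exact (h.dllg l _ (hpos g)).comp g (hB g)
  · intro l g _
    exact (h.dlgl l _ (hpos g)).mul_const _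
  · exact key h.cl
  · exact (key h.cg).mul (cB1.comp continuous_snd).continuousOn
  · exact key h.cll
  · exact (key h.clg).mul (cB1.comp continuous_snd).continuousOn
  · exact ((key h.cgg).mul ((cB1.comp continuous_snd).pow 2).continuousOn).add
      ((key h.cg).mul (hB2.comp continuous_snd).continuousOn)
  · exact (key h.cllg).mul (cB1.comp continuous_snd).continuousOn

end Pool.Agent.H37.EH
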